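import Pool.Agent.Helper10.RC.Basic

/-!
# MP_b55b7c_an: quasitraces on matrix algebras
-/

open scoped ENNReal NNReal InnerProductSpace ComplexOrder
open Filter Topology

attribute [-instance] CStarMatrix.instAlgebra CStarMatrix.instModule CStarMatrix.instSMul
  CStarMatrix.instMulAction CStarMatrix.instDistribMulAction

set_option linter.unusedSectionVars false

noncomputable section
namespace RC
universe u

variable {A : Type u} [CStarAlgebra A] [PartialOrder A] [StarOrderedRing A]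
variable {ι κ μ ν : Type} [Fintype ι] [DecidableEq ι] [Fintype κ] [DecidableEq κ]
  [Fintype μ] [DecidableEq μ] [Fintype ν] [DecidableEq ν]

namespace H7

theorem cm_sum_apply {σ : Type} (s : Finset σ) (f : σ → CStarMatrix ι κ A) (i : ι) (j : κ) :
    (∑ k ∈ s, f k) i j = ∑ k ∈ s, f k i j := Matrix.sum_apply _ _ _ _

/-! ## `flat` -/

theorem flat_mul (X : CStarMatrix ι κ (CStarMatrix ν ν A))
    (Y : CStarMatrix κ μ (CStarMatrix ν ν A)) : flat (X * Y) = flat X * flat Y := by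
  ext ⟨i, k⟩ ⟨j, l⟩
  show (X * Y) i j k l = (flat X * flat Y) (i, k) (j, l)
  rw [CStarMatrix.mul_apply, CStarMatrix.mul_apply, Fintype.sum_prod_type, cm_sum_apply]
  refine Finset.sum_congr rfl fun m _ => ?_
  rw [CStarMatrix.mul_apply]
  rfl

theorem flat_conj (X : CStarMatrix ι κ (CStarMatrix ν ν A)) :
    flat X.conjTranspose = (flat X).conjTranspose := rfl

theorem flat_add (X Y : CStarMatrix ι κ (CStarMatrix ν ν A)) :
    flat (X + Y) = flat X + flat Y := rfl

theorem flat_smul (c : ℝ) (X : CStarMatrix ι κ (CStarMatrix ν ν A)) :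
    flat (c • X) = c • flat X := rfl

theorem flat_one : flat (1 : CStarMatrix ι ι (CStarMatrix ν ν A)) = 1 := by
  ext ⟨i, k⟩ ⟨j, l⟩
  show (1 : CStarMatrix ι ι (CStarMatrix ν ν A)) i j k l =
    (1 : CStarMatrix (ι × ν) (ι × ν) A) (i, k) (j, l)
  rw [CStarMatrix.one_apply, CStarMatrix.one_apply]
  by_cases hij : i = j
  · rw [if_pos hij, CStarMatrix.one_apply]
    by_cases hkl : k = l
    · simp [hij, hkl]
    · simp [hij, hkl]
  · rw [if_neg hij]
    simp [hij]

/-- the quasitrace on `M_ν(A)` given by a quasitrace on `A` -/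
def redUp (h : FlatP.{u}) (h1 : QOneP.{u}) [Nonempty ν] (ω : QTrace A) :
    QTrace (CStarMatrix ν ν A) where
  τ := fun ι _ _ X => ω.τ (ι × ν) (flat X) / Fintype.card ν
  nonneg := fun ι _ _ a ha =>
    div_nonneg (ω.nonneg _ _ ((h A ν ι ι a a).1.1 ha)) (Nat.cast_nonneg _)
  trace := fun ι κ _ _ _ _ x => by
    show ω.τ (ι × ν) (flat (x * x.conjTranspose)) / Fintype.card ν =
      ω.τ (κ × ν) (flat (x.conjTranspose * x)) / Fintype.card ν
    rw [flat_mul, flat_mul, flat_conj, ω.trace]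
  add := fun ι _ _ a b ha hb hab => by
    show ω.τ (ι × ν) (flat (a + b)) / Fintype.card ν = ω.τ (ι × ν) (flat a) / Fintype.card ν +
      ω.τ (ι × ν) (flat b) / Fintype.card ν
    rw [flat_add, ω.add _ _ _ ((h A ν ι ι a a).1.1 ha) ((h A ν ι ι b b).1.1 hb)
      (by rw [← flat_mul, ← flat_mul, hab]), add_div]
  smul := fun ι _ _ c a hc ha => by
    show ω.τ (ι × ν) (flat (c • a)) / Fintype.card ν = c * (ω.τ (ι × ν) (flat a) / Fintype.card ν)
    rw [flat_smul, ω.smul _ _ _ hc ((h A ν ι ι a a).1.1 ha), mul_div_assoc]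
  one := by
    show ω.τ (Unit × ν) (flat 1) / Fintype.card ν = 1
    rw [flat_one, (h1 A ω (Unit × ν)).1]
    rw [Fintype.card_prod, Fintype.card_unit, one_mul]
    exact div_self (Nat.cast_ne_zero.2 Fintype.card_ne_zero)

end H7

open H7

theorem redUpP (h : FlatP.{u}) (h1 : QOneP.{u}) : RedUpP.{u} := by
  intro A _ _ _ ν _ _ _ ω
  refine ⟨redUp h h1 ω, fun ι _ _ X hX => ?_⟩
  unfold QTrace.dim
  rw [div_eq_mul_inv, Real.iSup_mul_of_nonneg (by positivity)]
  refine iSup_congr fun n => ?_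
  show ω.τ (ι × ν) (flat (cfc (fun t : ℝ => min 1 ((n : ℝ) * t)) X)) / Fintype.card ν = _
  rw [(h A ν ι ι X X).2.2 _ (by fun_prop) hX, div_eq_mul_inv]

namespace H7

/-! ## Matrix units -/

/-- the matrix with the single entry `a` -/
def eu (k l : ν) (a : A) : CStarMatrix ν ν A :=
  CStarMatrix.ofMatrix fun i j => if i = k ∧ j = l then a else 0

theorem eu_apply (k l : ν) (a : A) (i j : ν) : eu k l a i j = if i = k ∧ j = l then a else 0 := rfl

theorem eu_mul (k l m : ν) (a b : A) : eu k l a * eu l m b = eu k m (a * b) := by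
  ext i j
  rw [CStarMatrix.mul_apply, Finset.sum_eq_single l]
  · rw [eu_apply, eu_apply, eu_apply]
    by_cases hi : i = k <;> by_cases hj : j = m <;> simp [hi, hj]
  · intro p _ hp
    rw [eu_apply, eu_apply]
    simp [hp]
  · simp

theorem eu_mul_ne (k l l' m : ν) (hl : l ≠ l') (a b : A) : eu k l a * eu l' m b = 0 := by
  ext i j
  rw [CStarMatrix.mul_apply]
  refine Finset.sum_eq_zero fun p _ => ?_
  rw [eu_apply, eu_apply]
  by_cases hp : p = l
  · have : ¬ p = l' := fun h => hl (hp.symm.trans h)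
    simp [this]
  · simp [hp]

theorem eu_add (k l : ν) (a b : A) : eu k l (a + b) = eu k l a + eu k l b := by
  ext i j
  show (if i = k ∧ j = l then a + b else 0) = (if i = k ∧ j = l then a else 0) +
    (if i = k ∧ j = l then b else 0)
  split_ifs <;> simp

theorem eu_zero (k l : ν) : eu k l (0 : A) = 0 := by
  ext i j
  show (if i = k ∧ j = l then (0 : A) else 0) = 0
  split_ifs <;> rfl

theorem eu_smul (k l : ν) (c : ℝ) (a : A) : eu k l (c • a) = c • eu k l a := by
  ext i j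
  show (if i = k ∧ j = l then c • a else 0) = c • (if i = k ∧ j = l then a else 0)
  split_ifs <;> simp

theorem eu_star (k l : ν) (a : A) : star (eu k l a) = eu l k (star a) := by
  ext i j
  show star (if j = k ∧ i = l then a else 0) = (if i = l ∧ j = k then star a else 0)
  by_cases h : j = k ∧ i = l
  · rw [if_pos h, if_pos h.symm]
  · rw [if_neg h, if_neg (fun h' => h h'.symm), star_zero]

theorem eu_sum_one : ∑ k : ν, eu k k (1 : A) = 1 := by
  ext i j
  rw [cm_sum_apply, CStarMatrix.one_apply]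
  by_cases hij : i = j
  · subst hij
    rw [if_pos rfl, Finset.sum_eq_single i]
    · rw [eu_apply]
      simp
    · intro k _ hk
      rw [eu_apply]
      simp [hk.symm]
    · simp
  · rw [if_neg hij]
    refine Finset.sum_eq_zero fun k _ => ?_
    rw [eu_apply, if_neg]
    rintro ⟨h1, h2⟩
    exact hij (h1.trans h2.symm)

/-- the corner embedding -/
def hat (ν₀ : ν) (Y : CStarMatrix ι κ A) : CStarMatrix ι κ (CStarMatrix ν ν A) :=
  CStarMatrix.ofMatrix fun i j => eu ν₀ ν₀ (Y i j)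

theorem hat_apply (ν₀ : ν) (Y : CStarMatrix ι κ A) (i : ι) (j : κ) :
    hat ν₀ Y i j = eu ν₀ ν₀ (Y i j) := rfl

theorem eu_sum {σ : Type} (s : Finset σ) (k l : ν) (f : σ → A) :
    eu k l (∑ i ∈ s, f i) = ∑ i ∈ s, eu k l (f i) := by
  classical
  induction s using Finset.induction_on with
  | empty => rw [Finset.sum_empty, Finset.sum_empty, eu_zero]
  | insert a s ha ih => rw [Finset.sum_insert ha, Finset.sum_insert ha, eu_add, ih]

theorem hat_mul (ν₀ : ν) (Y : CStarMatrix ι κ A) (Z : CStarMatrix κ μ A) :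
    hat ν₀ (Y * Z) = hat ν₀ Y * hat ν₀ Z := by
  refine CStarMatrix.ext fun i j => ?_
  rw [hat_apply, CStarMatrix.mul_apply, CStarMatrix.mul_apply, eu_sum]
  refine Finset.sum_congr rfl fun m _ => ?_
  rw [hat_apply, hat_apply, eu_mul]

theorem hat_conj (ν₀ : ν) (Y : CStarMatrix ι κ A) :
    hat ν₀ Y.conjTranspose = (hat ν₀ Y).conjTranspose := by
  refine CStarMatrix.ext fun i j => ?_
  rw [hat_apply, CStarMatrix.conjTranspose_apply, CStarMatrix.conjTranspose_apply, hat_apply,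
    eu_star]

theorem hat_add (ν₀ : ν) (Y Z : CStarMatrix ι κ A) : hat ν₀ (Y + Z) = hat ν₀ Y + hat ν₀ Z := by
  refine CStarMatrix.ext fun i j => ?_
  exact eu_add ν₀ ν₀ (Y i j) (Z i j)

theorem hat_smul (ν₀ : ν) (c : ℝ) (Y : CStarMatrix ι κ A) :
    hat ν₀ (c • Y) = c • hat ν₀ Y := by
  refine CStarMatrix.ext fun i j => ?_
  exact eu_smul ν₀ ν₀ c (Y i j)

theorem hat_zero (ν₀ : ν) : hat ν₀ (0 : CStarMatrix ι κ A) = 0 := by
  refine CStarMatrix.ext fun i j => ?_
  exact eu_zero ν₀ ν₀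

theorem hat_nonneg (ν₀ : ν) {Y : CStarMatrix ι ι A} (hY : 0 ≤ Y) : 0 ≤ hat ν₀ Y := by
  obtain ⟨s, hs⟩ := CStarAlgebra.nonneg_iff_eq_mul_star_self.mp hY
  rw [hs, ← cm_star_eq, hat_mul, hat_conj]
  exact cm_mul_conj_nonneg _

/-- the corner embedding as a homomorphism -/
def hatHom (ι : Type) [Fintype ι] [DecidableEq ι] (A : Type u) [CStarAlgebra A] [PartialOrder A]
    [StarOrderedRing A] (ν₀ : ν) :
    CStarMatrix ι ι A →⋆ₙₐ[ℝ] CStarMatrix ι ι (CStarMatrix ν ν A) where
  toFun := hat ν₀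
  map_smul' := fun c Y => hat_smul ν₀ c Y
  map_zero' := hat_zero ν₀
  map_add' := hat_add ν₀
  map_mul' := hat_mul ν₀
  map_star' := fun Y => hat_conj ν₀ Y

theorem hat_continuous (ν₀ : ν) :
    Continuous (hat ν₀ : CStarMatrix ι ι A → CStarMatrix ι ι (CStarMatrix ν ν A)) := by
  have : Continuous fun Y : CStarMatrix ι ι A => fun (i j : ι) (k l : ν) =>
      (if k = ν₀ ∧ l = ν₀ then Y i j else (0 : A)) := by
    refine continuous_pi fun i => continuous_pi fun j => continuous_pi fun k =>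
      continuous_pi fun l => ?_
    have h1 : Continuous fun Y : ι → ι → A => Y i j := by fun_prop
    split_ifs
    · exact h1
    · exact continuous_const
  exact this

theorem hat_cfc (ν₀ : ν) {Y : CStarMatrix ι ι A} (hY : 0 ≤ Y) (f : ℝ → ℝ) (hf : Continuous f)
    (h0 : f 0 = 0) : hat ν₀ (cfc f Y) = cfc f (hat ν₀ Y) := by
  rw [← cfcₙ_eq_cfc (a := Y) (f := f) hf.continuousOn h0,
    ← cfcₙ_eq_cfc (a := hat ν₀ Y) (f := f) hf.continuousOn h0]
  exact NonUnitalStarAlgHomClass.map_cfcₙ (hatHom ι A ν₀) f Y hf.continuousOn h0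
    (hat_continuous ν₀) hY.isSelfAdjoint (hat_nonneg ν₀ hY).isSelfAdjoint

/-! ## The quasitrace on `A` given by a quasitrace on `M_ν(A)` -/

theorem one1_mul (a b : A) : one1 (a * b) = one1 a * one1 b := by
  refine CStarMatrix.ext fun i j => ?_
  rw [CStarMatrix.mul_apply]
  simp [one1]

theorem one1_conj (a : A) : (one1 a).conjTranspose = one1 (star a) := rfl

theorem one1_add (a b : A) : one1 (a + b) = one1 a + one1 b := rfl

theorem one1_zero : one1 (0 : A) = 0 := rfl

theorem one1_one : one1 (1 : A) = 1 := by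
  refine CStarMatrix.ext fun i j => ?_
  rw [CStarMatrix.one_apply, if_pos (Subsingleton.elim i j)]
  rfl

theorem tau_unit (σ' : QTrace (CStarMatrix ν ν A)) (k l : ν) :
    σ'.τ Unit (one1 (eu k k 1)) = σ'.τ Unit (one1 (eu l l 1)) := by
  have h := σ'.trace Unit Unit (one1 (eu k l (1 : A)))
  have e1 : one1 (eu k l (1 : A)) * (one1 (eu k l (1 : A))).conjTranspose =
      one1 (eu k k (1 : A)) := by
    rw [one1_conj, ← one1_mul, eu_star, eu_mul, star_one, mul_one]
  have e2 : (one1 (eu k l (1 : A))).conjTranspose * one1 (eu k l (1 : A)) =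
      one1 (eu l l (1 : A)) := by
    rw [one1_conj, ← one1_mul, eu_star, eu_mul, star_one, mul_one]
  rwa [e1, e2] at h

theorem one1_eu_nonneg (k : ν) : 0 ≤ one1 (eu k k (1 : A)) := by
  have e1 : one1 (eu k k (1 : A)) =
      one1 (eu k k (1 : A)) * (one1 (eu k k (1 : A))).conjTranspose := by
    rw [one1_conj, ← one1_mul, eu_star, eu_mul, star_one, mul_one]
  rw [e1]
  exact cm_mul_conj_nonneg _

theorem tau_sum (σ' : QTrace (CStarMatrix ν ν A)) (s : Finset ν) :
    σ'.τ Unit (one1 (∑ k ∈ s, eu k k (1 : A))) = ∑ k ∈ s, σ'.τ Unit (one1 (eu k k (1 : A))) ∧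
      0 ≤ one1 (∑ k ∈ s, eu k k (1 : A)) := by
  induction s using Finset.induction_on with
  | empty =>
    rw [Finset.sum_empty, Finset.sum_empty, one1_zero]
    exact ⟨σ'.zero, le_rfl⟩
  | insert a s ha ih =>
    rw [Finset.sum_insert ha, Finset.sum_insert ha, one1_add]
    refine ⟨?_, add_nonneg (one1_eu_nonneg a) ih.2⟩
    rw [σ'.add Unit _ _ (one1_eu_nonneg a) ih.2 ?_, ih.1]
    have e1 : eu a a (1 : A) * ∑ k ∈ s, eu k k (1 : A) = 0 := by
      rw [Finset.mul_sum]
      refine Finset.sum_eq_zero fun k hk => eu_mul_ne a a k k ?_ _ _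
      rintro rfl
      exact ha hk
    have e2 : (∑ k ∈ s, eu k k (1 : A)) * eu a a (1 : A) = 0 := by
      rw [Finset.sum_mul]
      refine Finset.sum_eq_zero fun k hk => eu_mul_ne k k a a ?_ _ _
      rintro rfl
      exact ha hk
    rw [← one1_mul, ← one1_mul, e1, e2]

theorem card_tau (σ' : QTrace (CStarMatrix ν ν A)) (ν₀ : ν) :
    (Fintype.card ν : ℝ) * σ'.τ Unit (hat ν₀ (1 : CStarMatrix Unit Unit A)) = 1 := by
  have h1 : hat ν₀ (1 : CStarMatrix Unit Unit A) = one1 (eu ν₀ ν₀ (1 : A)) := by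
    refine CStarMatrix.ext fun i j => ?_
    rw [hat_apply, CStarMatrix.one_apply, if_pos (Subsingleton.elim i j)]
    rfl
  have h2 := (tau_sum σ' Finset.univ).1
  rw [eu_sum_one, one1_one, σ'.one, Finset.sum_congr rfl fun k _ => tau_unit σ' k ν₀,
    Finset.sum_const, nsmul_eq_mul, Finset.card_univ] at h2
  rw [h1]
  exact h2.symm

/-- the quasitrace on `A` given by a quasitrace on `M_ν(A)` -/
def redDn (ν₀ : ν) (σ' : QTrace (CStarMatrix ν ν A)) : QTrace A where
  τ := fun ι _ _ Y => Fintype.card ν * σ'.τ ι (hat ν₀ Y)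
  nonneg := fun ι _ _ a ha =>
    mul_nonneg (Nat.cast_nonneg _) (σ'.nonneg _ _ (hat_nonneg ν₀ ha))
  trace := fun ι κ _ _ _ _ x => by
    show (Fintype.card ν : ℝ) * σ'.τ ι (hat ν₀ (x * x.conjTranspose)) =
      Fintype.card ν * σ'.τ κ (hat ν₀ (x.conjTranspose * x))
    rw [hat_mul, hat_mul, hat_conj, σ'.trace]
  add := fun ι _ _ a b ha hb hab => by
    show (Fintype.card ν : ℝ) * σ'.τ ι (hat ν₀ (a + b)) = Fintype.card ν * σ'.τ ι (hat ν₀ a) +
      Fintype.card ν * σ'.τ ι (hat ν₀ b)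
    rw [hat_add, σ'.add _ _ _ (hat_nonneg ν₀ ha) (hat_nonneg ν₀ hb)
      (by rw [← hat_mul, ← hat_mul, hab]), mul_add]
  smul := fun ι _ _ c a hc ha => by
    show (Fintype.card ν : ℝ) * σ'.τ ι (hat ν₀ (c • a)) = c * (Fintype.card ν * σ'.τ ι (hat ν₀ a))
    rw [hat_smul, σ'.smul _ _ _ hc (hat_nonneg ν₀ ha)]
    ring
  one := card_tau σ' ν₀

theorem redDn_dim (ν₀ : ν) (σ' : QTrace (CStarMatrix ν ν A)) {Y : CStarMatrix ι ι A}
    (hY : 0 ≤ Y) : (redDn ν₀ σ').dim Y = Fintype.card ν * σ'.dim (hat ν₀ Y) := by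
  unfold QTrace.dim
  rw [Real.mul_iSup_of_nonneg (by positivity)]
  refine iSup_congr fun n => ?_
  show (Fintype.card ν : ℝ) *
    σ'.τ ι (hat ν₀ (cfc (fun t : ℝ => min 1 ((n : ℝ) * t)) Y)) = _
  rw [hat_cfc ν₀ hY _ (by fun_prop) (by simp)]

/-- the isometry `S` with `S X S* = hat (flat X)` -/
def isoS (ι : Type) [Fintype ι] [DecidableEq ι] (A : Type u) [CStarAlgebra A] (ν₀ : ν) :
    CStarMatrix (ι × ν) ι (CStarMatrix ν ν A) :=
  CStarMatrix.ofMatrix fun p i => if p.1 = i then eu ν₀ p.2 1 else 0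

theorem eu_mul_mul (k l k' l' : ν) (a b : A) (T : CStarMatrix ν ν A) :
    eu k l a * T * eu k' l' b = eu k l' (a * T l k' * b) := by
  ext i j
  rw [CStarMatrix.mul_apply, Finset.sum_eq_single k']
  · rw [CStarMatrix.mul_apply, Finset.sum_eq_single l]
    · rw [eu_apply, eu_apply, eu_apply]
      by_cases hi : i = k <;> by_cases hj : j = l' <;> simp [hi, hj]
    · intro p _ hp
      rw [eu_apply]
      simp [hp]
    · simp
  · intro p _ hp
    rw [eu_apply k' l' b]
    simp [hp]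
  · simp

theorem isoS_conj (ν₀ : ν) (X : CStarMatrix ι ι (CStarMatrix ν ν A)) :
    isoS ι A ν₀ * X * (isoS ι A ν₀).conjTranspose = hat ν₀ (flat X) := by
  refine CStarMatrix.ext fun p q => ?_
  obtain ⟨i, k⟩ := p
  obtain ⟨j, l⟩ := q
  rw [CStarMatrix.mul_apply, Finset.sum_eq_single j]
  · rw [CStarMatrix.mul_apply, Finset.sum_eq_single i]
    · rw [CStarMatrix.conjTranspose_apply]
      show (if i = i then eu ν₀ k (1 : A) else 0) * X i j *
        star (if j = j then eu ν₀ l (1 : A) else 0) = eu ν₀ ν₀ (X i j k l)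
      rw [if_pos rfl, if_pos rfl, eu_star, eu_mul_mul, one_mul, star_one, mul_one]
    · intro m _ hm
      show (if i = m then eu ν₀ k (1 : A) else 0) * X m j = 0
      rw [if_neg hm.symm, zero_mul]
    · simp
  · intro m _ hm
    rw [CStarMatrix.conjTranspose_apply]
    show _ * star (if j = m then eu ν₀ l (1 : A) else 0) = 0
    rw [if_neg hm.symm, star_zero, mul_zero]
  · simp

theorem isoS_one (ν₀ : ν) : (isoS ι A ν₀).conjTranspose * isoS ι A ν₀ = 1 := by
  refine CStarMatrix.ext fun i j => ?_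
  rw [CStarMatrix.mul_apply, Fintype.sum_prod_type, CStarMatrix.one_apply]
  by_cases hij : i = j
  · subst hij
    rw [if_pos rfl, Finset.sum_eq_single i]
    · rw [← eu_sum_one]
      refine Finset.sum_congr rfl fun k _ => ?_
      rw [CStarMatrix.conjTranspose_apply]
      show star (if i = i then eu ν₀ k (1 : A) else 0) * (if i = i then eu ν₀ k (1 : A) else 0) = _
      rw [if_pos rfl, eu_star, eu_mul, star_one, mul_one]
    · intro m _ hm
      refine Finset.sum_eq_zero fun k _ => ?_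
      rw [CStarMatrix.conjTranspose_apply]
      show star (if m = i then eu ν₀ k (1 : A) else 0) * (if m = i then eu ν₀ k (1 : A) else 0) = _
      rw [if_neg hm, mul_zero]
    · simp
  · rw [if_neg hij]
    refine Finset.sum_eq_zero fun m _ => Finset.sum_eq_zero fun k _ => ?_
    rw [CStarMatrix.conjTranspose_apply]
    show star (if m = i then eu ν₀ k (1 : A) else 0) * (if m = j then eu ν₀ k (1 : A) else 0) = _
    by_cases hm : m = i
    · rw [if_neg (fun h => hij (hm.symm.trans h)), mul_zero]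
    · rw [if_neg hm, star_zero, zero_mul]

theorem cu_hat (ν₀ : ν) (X : CStarMatrix ι ι (CStarMatrix ν ν A)) :
    Cu (hat ν₀ (flat X)) X ∧ Cu X (hat ν₀ (flat X)) := by
  constructor
  · intro ε hε
    refine ⟨isoS ι A ν₀, ?_⟩
    rw [isoS_conj, sub_self, norm_zero]
    exact hε
  · intro ε hε
    refine ⟨(isoS ι A ν₀).conjTranspose, ?_⟩
    rw [← isoS_conj, cm_conj_conj, ← cm_assoc, ← cm_assoc, isoS_one, cm_one_mul, cm_assoc,
      isoS_one, cm_mul_one, sub_self, norm_zero]
    exact hε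

end H7

theorem redDnP (h : FlatP.{u}) (hm : QMonoP.{u}) : RedDnP.{u} := by
  intro A _ _ _ ν _ _ _ σ'
  obtain ⟨ν₀⟩ := ‹Nonempty ν›
  refine ⟨redDn ν₀ σ', fun ι _ _ X hX => ?_⟩
  have hf : 0 ≤ flat X := (h A ν ι ι X X).1.1 hX
  have hc := cu_hat ν₀ X
  have h1 := hm (CStarMatrix ν ν A) σ' (ι × ν) ι (hat ν₀ (flat X)) X (hat_nonneg ν₀ hf) hX hc.1
  have h2 := hm (CStarMatrix ν ν A) σ' ι (ι × ν) X (hat ν₀ (flat X)) hX (hat_nonneg ν₀ hf) hc.2
  rw [redDn_dim ν₀ σ' hf, le_antisymm h2 h1]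
  have : (Fintype.card ν : ℝ) ≠ 0 := by
    have : 0 < Fintype.card ν := Fintype.card_pos_iff.2 ⟨ν₀⟩
    positivity
  field_simp

end RC
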